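import Pool.Agent.Lib.MP_afdd4d_co.K8.PtTab
import Pool.Agent.Lib.MP_afdd4d_co.K8.PD.Dat
import Pool.Agent.Lib.MP_afdd4d_co.K8.PD.Prg

/-!
# The classes of the differences
-/

namespace Pool.Agent.Lib.MP_afdd4d_co.K8.PD

set_option maxRecDepth 100000
set_option exponentiation.threshold 10000000

/-- The classes of the differences. -/
def G : PG where
  w := 64
  jt := jtL
  pt := ptN
  pr := prL
  al := alL

end Pool.Agent.Lib.MP_afdd4d_co.K8.PD
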