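import Pool.Agent.Lib.MP_afdd4d_co.K8.PD.Def

/-!
# The differences from 22528
-/

namespace Pool.Agent.Lib.MP_afdd4d_co.K8.PD

set_option maxRecDepth 100000
set_option exponentiation.threshold 10000000

theorem j11 : allN (fun j => G.ckJ (Nat.add 22528 j)) 2048 = true := by decide +kernel

end Pool.Agent.Lib.MP_afdd4d_co.K8.PD
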