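import Pool.Agent.Lib.MP_afdd4d_co.K8.PD.K0
import Pool.Agent.Lib.MP_afdd4d_co.K8.PD.K1
import Pool.Agent.Lib.MP_afdd4d_co.K8.PD.K2
import Pool.Agent.Lib.MP_afdd4d_co.K8.PD.K3
import Pool.Agent.Lib.MP_afdd4d_co.K8.PD.J0
import Pool.Agent.Lib.MP_afdd4d_co.K8.PD.J1
import Pool.Agent.Lib.MP_afdd4d_co.K8.PD.J2
import Pool.Agent.Lib.MP_afdd4d_co.K8.PD.J3
import Pool.Agent.Lib.MP_afdd4d_co.K8.PD.J4
import Pool.Agent.Lib.MP_afdd4d_co.K8.PD.J5
import Pool.Agent.Lib.MP_afdd4d_co.K8.PD.J6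
import Pool.Agent.Lib.MP_afdd4d_co.K8.PD.J7
import Pool.Agent.Lib.MP_afdd4d_co.K8.PD.J8
import Pool.Agent.Lib.MP_afdd4d_co.K8.PD.J9
import Pool.Agent.Lib.MP_afdd4d_co.K8.PD.J10
import Pool.Agent.Lib.MP_afdd4d_co.K8.PD.J11
import Pool.Agent.Lib.MP_afdd4d_co.K8.PD.J12
import Pool.Agent.Lib.MP_afdd4d_co.K8.PD.J13
import Pool.Agent.Lib.MP_afdd4d_co.K8.PD.J14
import Pool.Agent.Lib.MP_afdd4d_co.K8.PD.J15

/-!
# The conditions
-/

namespace Pool.Agent.Lib.MP_afdd4d_co.K8.PD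

set_option maxRecDepth 100000
set_option exponentiation.threshold 10000000

theorem okK : ∀ k < 720, G.okK k = true := by
  intro k hk
  have h1 : k = 180 * (k / 180) + k % 180 := (Nat.div_add_mod k 180).symm
  have h2 : k % 180 < 180 := Nat.mod_lt _ (by norm_num)
  have h3 : k / 180 < 4 := by omega
  rw [h1]
  generalize k % 180 = j at h2
  generalize k / 180 = b at h3
  interval_cases b
  · exact allN_spec _ _ k0 j h2
  · exact allN_spec _ _ k1 j h2
  · exact allN_spec _ _ k2 j h2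
  · exact allN_spec _ _ k3 j h2

theorem okJ : ∀ J < 2 ^ 15, G.ckJ J = true := by
  intro J hJ
  have h1 : J = 2048 * (J / 2048) + J % 2048 := (Nat.div_add_mod J 2048).symm
  have h2 : J % 2048 < 2048 := Nat.mod_lt _ (by norm_num)
  have h3 : J / 2048 < 16 := by omega
  rw [h1]
  generalize J % 2048 = j at h2
  generalize J / 2048 = b at h3
  interval_cases b
  · exact allN_spec _ _ j0 j h2
  · exact allN_spec _ _ j1 j h2
  · exact allN_spec _ _ j2 j h2
  · exact allN_spec _ _ j3 j h2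
  · exact allN_spec _ _ j4 j h2
  · exact allN_spec _ _ j5 j h2
  · exact allN_spec _ _ j6 j h2
  · exact allN_spec _ _ j7 j h2
  · exact allN_spec _ _ j8 j h2
  · exact allN_spec _ _ j9 j h2
  · exact allN_spec _ _ j10 j h2
  · exact allN_spec _ _ j11 j h2
  · exact allN_spec _ _ j12 j h2
  · exact allN_spec _ _ j13 j h2
  · exact allN_spec _ _ j14 j h2
  · exact allN_spec _ _ j15 j h2

theorem ok : G.OK := ⟨okK, okJ⟩

end Pool.Agent.Lib.MP_afdd4d_co.K8.PD
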