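import Pool.Agent.Lib.MP_afdd4d_co.K8.PtPrg

/-!
# Instructions
-/

namespace Pool.Agent.Lib.MP_afdd4d_co.K8.PD

set_option maxRecDepth 100000
set_option exponentiation.threshold 10000000

def c1_3 : PI := ⟨1, 14, 3, maP 64 1 14 3, daP 64 1 14 3⟩
def c1_6 : PI := ⟨1, 98, 6, maP 64 1 98 6, daP 64 1 98 6⟩
def c1_8 : PI := ⟨1, 292, 8, maP 64 1 292 8, daP 64 1 292 8⟩
def c1_9 : PI := ⟨1, 328, 9, maP 64 1 328 9, daP 64 1 328 9⟩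
def c2_2 : PI := ⟨1, 22, 2, maP 64 1 22 2, daP 64 1 22 2⟩
def c2_5 : PI := ⟨1, 162, 5, maP 64 1 162 5, daP 64 1 162 5⟩
def c2_7 : PI := ⟨1, 548, 7, maP 64 1 548 7, daP 64 1 548 7⟩
def c2_9 : PI := ⟨1, 656, 9, maP 64 1 656 9, daP 64 1 656 9⟩
def c3_1 : PI := ⟨1, 26, 1, maP 64 1 26 1, daP 64 1 26 1⟩
def c3_4 : PI := ⟨1, 194, 4, maP 64 1 194 4, daP 64 1 194 4⟩
def c3_7 : PI := ⟨1, 1096, 7, maP 64 1 1096 7, daP 64 1 1096 7⟩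
def c3_8 : PI := ⟨1, 1168, 8, maP 64 1 1168 8, daP 64 1 1168 8⟩
def c4_0 : PI := ⟨1, 28, 0, maP 64 1 28 0, daP 64 1 28 0⟩
def c4_4 : PI := ⟨1, 772, 4, maP 64 1 772 4, daP 64 1 772 4⟩
def c4_5 : PI := ⟨1, 1288, 5, maP 64 1 1288 5, daP 64 1 1288 5⟩
def c4_6 : PI := ⟨1, 1552, 6, maP 64 1 1552 6, daP 64 1 1552 6⟩
def c5_0 : PI := ⟨1, 224, 0, maP 64 1 224 0, daP 64 1 224 0⟩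
def c5_1 : PI := ⟨1, 800, 1, maP 64 1 800 1, daP 64 1 800 1⟩
def c5_2 : PI := ⟨1, 1344, 2, maP 64 1 1344 2, daP 64 1 1344 2⟩
def c5_3 : PI := ⟨1, 1664, 3, maP 64 1 1664 3, daP 64 1 1664 3⟩
def s0_1 : PI := ⟨0, 0, 1, maP 64 0 0 1, daP 64 0 0 1⟩
def s0_2 : PI := ⟨0, 0, 2, maP 64 0 0 2, daP 64 0 0 2⟩
def s0_3 : PI := ⟨0, 0, 3, maP 64 0 0 3, daP 64 0 0 3⟩
def s0_4 : PI := ⟨0, 0, 4, maP 64 0 0 4, daP 64 0 0 4⟩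
def s0_5 : PI := ⟨0, 0, 5, maP 64 0 0 5, daP 64 0 0 5⟩
def s0_6 : PI := ⟨0, 0, 6, maP 64 0 0 6, daP 64 0 0 6⟩
def s0_7 : PI := ⟨0, 0, 7, maP 64 0 0 7, daP 64 0 0 7⟩
def s0_8 : PI := ⟨0, 0, 8, maP 64 0 0 8, daP 64 0 0 8⟩
def s0_9 : PI := ⟨0, 0, 9, maP 64 0 0 9, daP 64 0 0 9⟩
def s1_2 : PI := ⟨0, 1, 2, maP 64 0 1 2, daP 64 0 1 2⟩
def s1_3 : PI := ⟨0, 1, 3, maP 64 0 1 3, daP 64 0 1 3⟩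
def s1_4 : PI := ⟨0, 1, 4, maP 64 0 1 4, daP 64 0 1 4⟩
def s1_5 : PI := ⟨0, 1, 5, maP 64 0 1 5, daP 64 0 1 5⟩
def s1_6 : PI := ⟨0, 1, 6, maP 64 0 1 6, daP 64 0 1 6⟩
def s1_7 : PI := ⟨0, 1, 7, maP 64 0 1 7, daP 64 0 1 7⟩
def s1_8 : PI := ⟨0, 1, 8, maP 64 0 1 8, daP 64 0 1 8⟩
def s1_9 : PI := ⟨0, 1, 9, maP 64 0 1 9, daP 64 0 1 9⟩
def s2_3 : PI := ⟨0, 2, 3, maP 64 0 2 3, daP 64 0 2 3⟩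
def s2_4 : PI := ⟨0, 2, 4, maP 64 0 2 4, daP 64 0 2 4⟩
def s2_5 : PI := ⟨0, 2, 5, maP 64 0 2 5, daP 64 0 2 5⟩
def s2_6 : PI := ⟨0, 2, 6, maP 64 0 2 6, daP 64 0 2 6⟩
def s2_7 : PI := ⟨0, 2, 7, maP 64 0 2 7, daP 64 0 2 7⟩
def s2_8 : PI := ⟨0, 2, 8, maP 64 0 2 8, daP 64 0 2 8⟩
def s2_9 : PI := ⟨0, 2, 9, maP 64 0 2 9, daP 64 0 2 9⟩
def s3_4 : PI := ⟨0, 3, 4, maP 64 0 3 4, daP 64 0 3 4⟩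
def s3_5 : PI := ⟨0, 3, 5, maP 64 0 3 5, daP 64 0 3 5⟩
def s3_6 : PI := ⟨0, 3, 6, maP 64 0 3 6, daP 64 0 3 6⟩
def s3_7 : PI := ⟨0, 3, 7, maP 64 0 3 7, daP 64 0 3 7⟩
def s3_8 : PI := ⟨0, 3, 8, maP 64 0 3 8, daP 64 0 3 8⟩
def s3_9 : PI := ⟨0, 3, 9, maP 64 0 3 9, daP 64 0 3 9⟩
def s4_5 : PI := ⟨0, 4, 5, maP 64 0 4 5, daP 64 0 4 5⟩
def s4_6 : PI := ⟨0, 4, 6, maP 64 0 4 6, daP 64 0 4 6⟩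
def s4_7 : PI := ⟨0, 4, 7, maP 64 0 4 7, daP 64 0 4 7⟩
def s4_8 : PI := ⟨0, 4, 8, maP 64 0 4 8, daP 64 0 4 8⟩
def s4_9 : PI := ⟨0, 4, 9, maP 64 0 4 9, daP 64 0 4 9⟩
def s5_6 : PI := ⟨0, 5, 6, maP 64 0 5 6, daP 64 0 5 6⟩
def s5_7 : PI := ⟨0, 5, 7, maP 64 0 5 7, daP 64 0 5 7⟩
def s5_8 : PI := ⟨0, 5, 8, maP 64 0 5 8, daP 64 0 5 8⟩
def s5_9 : PI := ⟨0, 5, 9, maP 64 0 5 9, daP 64 0 5 9⟩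
def s6_7 : PI := ⟨0, 6, 7, maP 64 0 6 7, daP 64 0 6 7⟩
def s6_8 : PI := ⟨0, 6, 8, maP 64 0 6 8, daP 64 0 6 8⟩
def s6_9 : PI := ⟨0, 6, 9, maP 64 0 6 9, daP 64 0 6 9⟩
def s7_8 : PI := ⟨0, 7, 8, maP 64 0 7 8, daP 64 0 7 8⟩
def s7_9 : PI := ⟨0, 7, 9, maP 64 0 7 9, daP 64 0 7 9⟩
def s8_9 : PI := ⟨0, 8, 9, maP 64 0 8 9, daP 64 0 8 9⟩

end Pool.Agent.Lib.MP_afdd4d_co.K8.PD
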