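import Pool.Agent.Lib.MP_afdd4d_co.K8.PD.Ins

/-!
# Programs, part 1
-/

namespace Pool.Agent.Lib.MP_afdd4d_co.K8.PD

set_option maxRecDepth 100000
set_option exponentiation.threshold 10000000

/-- Programs. -/
def pr0 : List (List (List PI)) := [
  [[],
   [s1_4, s2_5, s3_6],
   [s0_1, s5_7, s6_8],
   [s0_4, s1_4, s2_5, s3_6, s5_7, s6_8],
   [s0_1, s1_4, s2_7, s3_8, s5_7, s6_8],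
   [s0_4, s2_7, s3_8],
   [s1_2, s4_5, s8_9],
   [s1_5, s2_4, s3_6, s8_9],
   [s0_1, s1_2, s4_7, s5_7, s6_8, s8_9]],
  [[s0_4, s1_5, s2_4, s3_6, s4_7, s6_8, s8_9],
   [s0_1, s1_7, s2_4, s3_8, s5_7, s6_8, s8_9],
   [s0_4, s1_7, s2_7, s3_8, s4_5, s8_9],
   [s0_2, s1_2, s4_5, s5_7, s6_9, s8_9],
   [s0_5, s1_5, s2_4, s3_6, s5_7, s6_9, s8_9],
   [s0_2, s4_7, s6_9],
   [s0_5, s1_4, s2_5, s3_6, s4_7, s6_9],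
   [s0_7, s2_4, s3_8, s6_9],
   [s0_7, s1_4, s2_4, s3_8, s4_5, s6_9, s8_9]],
  [[s0_2, s1_5, s2_7, s3_9, s4_7, s6_9, s8_9],
   [s0_5, s1_2, s2_7, s3_9, s4_5, s8_9],
   [s0_2, s1_7, s2_5, s3_9, s4_7, s6_9],
   [s0_5, s1_7, s3_9],
   [s0_7, s1_2, s2_5, s3_9, s4_5, s6_8, s8_9],
   [s0_7, s1_5, s3_9, s6_8],
   [s2_3, s5_6, s7_8],
   [s1_4, s2_6, s3_5, s7_8],
   [s0_1, s2_3, s5_8, s6_7]],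
  [[s0_4, s1_4, s2_6, s3_5, s5_8, s6_7, s7_8],
   [s0_1, s1_4, s2_8, s3_7, s5_7, s6_8, s7_8],
   [s0_4, s2_8, s3_7, s5_6],
   [s1_2, s2_3, s4_5, s5_6, s7_9, s8_9],
   [s1_5, s2_6, s3_4, s4_6, s5_6, s7_9, s8_9],
   [s0_1, s1_2, s2_3, s4_7, s5_8, s6_7, s7_9],
   [s0_4, s1_5, s2_6, s3_4, s4_7, s5_8, s6_8, s7_9],
   [s0_1, s1_7, s2_8, s3_4, s4_8, s5_8, s6_7, s7_9],
   [s0_4, s1_7, s2_8, s3_7, s4_5, s5_6, s7_9]],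
  [[s0_2, s1_2, s2_3, s4_5, s5_9, s6_7, s8_9],
   [s0_5, s1_5, s2_6, s3_4, s4_6, s5_9, s6_7, s8_9],
   [s0_2, s2_3, s4_7, s5_9, s6_9, s7_8],
   [s0_5, s1_4, s2_6, s3_5, s4_7, s5_9, s7_8],
   [s0_7, s2_8, s3_4, s4_8, s5_9, s6_9, s7_8],
   [s0_7, s1_4, s2_8, s3_4, s4_5, s5_9, s6_8, s7_8],
   [s0_2, s1_5, s2_9, s3_7, s4_9, s5_7, s6_7, s8_9],
   [s0_5, s1_2, s2_9, s3_7, s4_5, s5_6, s8_9],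
   [s0_2, s1_7, s2_9, s3_5, s4_7, s6_9, s7_8]],
  [[s0_5, s1_7, s2_9, s3_9, s5_6, s7_8],
   [s0_7, s1_2, s2_9, s3_5, s4_9, s5_8, s6_9, s7_8],
   [s0_7, s1_5, s2_9, s3_9, s5_8, s6_8, s7_8],
   [s1_3, s2_3, s4_6, s5_6, s7_8, s8_9],
   [s1_6, s2_4, s3_5, s4_5, s5_6, s7_8, s8_9],
   [s0_1, s1_3, s2_3, s4_8, s5_8, s6_7, s8_9],
   [s0_4, s1_6, s2_4, s3_5, s4_8, s5_6, s6_7, s8_9],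
   [s0_1, s1_8, s2_4, s3_7, s4_7, s5_8, s6_7, s8_9],
   [s0_4, s1_8, s2_8, s3_7, s4_6, s5_6, s8_9]],
  [[s1_3, s4_6, s7_9],
   [s1_6, s2_5, s3_4, s7_9],
   [s0_1, s1_3, s4_8, s5_7, s6_8, s7_9],
   [s0_4, s1_6, s2_5, s3_4, s4_8, s5_7, s7_9],
   [s0_1, s1_8, s2_7, s3_4, s5_7, s6_8, s7_9],
   [s0_4, s1_8, s2_7, s3_8, s4_6, s7_9],
   [s0_2, s1_3, s4_9, s6_7],
   [s0_5, s1_6, s2_5, s3_4, s4_9, s6_7, s7_9],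
   [s0_2, s1_3, s2_3, s4_9, s5_7, s6_7, s7_8]],
  [[s0_5, s1_6, s2_4, s3_5, s4_9, s5_7, s6_9, s7_8],
   [s0_7, s1_8, s2_8, s3_4, s4_9, s5_8, s6_8, s7_9],
   [s0_7, s1_8, s2_4, s3_8, s4_9, s6_9, s7_9],
   [s0_2, s1_9, s2_5, s3_7, s4_7, s6_9, s7_9],
   [s0_5, s1_9, s3_7, s4_6],
   [s0_2, s1_9, s2_7, s3_5, s4_5, s5_9, s6_7, s7_8],
   [s0_5, s1_9, s2_7, s3_7, s4_6, s5_6, s7_8],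
   [s0_7, s1_9, s3_5, s4_8, s5_9, s6_8, s7_9],
   [s0_7, s1_9, s2_5, s3_5, s4_8, s5_8, s6_9, s7_9]],
  [[s0_3, s1_3, s2_3, s4_6, s5_8, s6_9, s7_9],
   [s0_6, s1_6, s2_4, s3_5, s4_5, s5_8, s6_9, s7_9],
   [s0_3, s2_3, s4_8, s5_6, s6_9, s7_8],
   [s0_6, s1_4, s2_6, s3_5, s4_8, s6_9, s7_8],
   [s0_8, s2_4, s3_7, s4_7, s5_6, s6_9, s7_8],
   [s0_8, s1_4, s2_4, s3_7, s4_6, s5_7, s6_9, s7_8],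
   [s0_3, s1_3, s4_6, s5_9, s6_8, s7_9],
   [s0_6, s1_6, s2_5, s3_4, s5_9, s6_8, s7_9],
   [s0_3, s4_8, s5_9]]]

/-- Programs. -/
def pr1 : List (List (List PI)) := [
  [[s0_6, s1_4, s2_5, s3_6, s4_8, s5_9],
   [s0_8, s2_7, s3_4, s5_9],
   [s0_8, s1_4, s2_7, s3_4, s4_6, s5_9, s7_9],
   [s0_3, s1_2, s2_3, s4_9, s5_6, s6_8, s7_8],
   [s0_6, s1_5, s2_6, s3_4, s4_9, s5_9, s6_8, s7_8],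
   [s0_3, s1_2, s4_9, s5_8],
   [s0_6, s1_5, s2_4, s3_6, s4_9, s5_8, s8_9],
   [s0_8, s1_7, s2_7, s3_4, s4_9, s5_9, s8_9],
   [s0_8, s1_7, s2_4, s3_7, s4_9, s5_6, s6_7, s8_9]],
  [[s0_9, s1_2, s2_5, s3_7, s4_7, s5_6, s6_8, s7_9],
   [s0_9, s1_5, s3_7, s4_6, s5_7, s6_8, s7_9],
   [s0_9, s1_2, s2_7, s3_5, s4_5, s5_8, s8_9],
   [s0_9, s1_5, s2_7, s3_7, s4_6, s5_8, s6_7, s8_9],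
   [s0_9, s1_7, s3_5, s4_8],
   [s0_9, s1_7, s2_5, s3_5, s4_8, s5_6, s7_8],
   [s0_3, s1_6, s2_8, s3_9, s4_9, s5_6, s6_8, s7_9],
   [s0_6, s1_3, s2_8, s3_9, s4_6, s5_6, s7_9],
   [s0_3, s1_8, s2_6, s3_9, s4_8, s5_9, s7_8]],
  [[s0_6, s1_8, s2_3, s3_9, s5_6, s7_8],
   [s0_8, s1_3, s2_6, s3_9, s4_9, s5_9, s6_7, s7_8],
   [s0_8, s1_6, s2_3, s3_9, s5_6, s6_7, s7_8],
   [s0_3, s1_6, s2_9, s3_8, s4_8, s5_9, s7_9],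
   [s0_6, s1_3, s2_9, s3_8, s4_6, s7_9],
   [s0_3, s1_8, s2_9, s3_6, s4_8, s5_9],
   [s0_6, s1_8, s2_9],
   [s0_8, s1_3, s2_9, s3_6, s4_6, s5_7, s7_9],
   [s0_8, s1_6, s2_9, s5_7]],
  [[s0_3, s1_9, s2_6, s3_8, s4_6, s5_8, s6_9, s7_8],
   [s0_6, s1_9, s2_3, s3_8, s4_5, s5_6, s7_8],
   [s0_3, s1_9, s2_8, s3_6, s4_8, s5_9, s8_9],
   [s0_6, s1_9, s2_8, s4_5],
   [s0_8, s1_9, s2_3, s3_6, s4_7, s5_9, s6_7, s8_9],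
   [s0_8, s1_9, s2_6, s4_7, s5_7, s6_9, s8_9],
   [s0_9, s1_3, s2_6, s3_8, s4_6, s6_7, s7_9],
   [s0_9, s1_6, s2_3, s3_8, s4_5, s5_8, s6_7, s7_9],
   [s0_9, s1_3, s2_8, s3_6, s4_8, s5_7, s6_7, s8_9]],
  [[s0_9, s1_6, s2_8, s4_5, s5_7, s6_8, s8_9],
   [s0_9, s1_8, s2_3, s3_6, s4_7, s5_6, s7_8],
   [s0_9, s1_8, s2_6, s4_7],
   [c1_3, c1_6, c1_8, c1_9],
   [s1_4, s2_5, s3_6, c1_3, c1_6, c1_8, c1_9],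
   [s0_1, s5_7, s6_8, c1_3, c1_6, c1_8, c1_9],
   [s0_4, s1_4, s2_5, s3_6, s5_7, s6_8, c1_3, c1_6, c1_8, c1_9],
   [s0_1, s1_4, s2_7, s3_8, s5_7, s6_8, c1_3, c1_6, c1_8, c1_9],
   [s0_4, s2_7, s3_8, c1_3, c1_6, c1_8, c1_9]],
  [[s1_2, s4_5, s8_9, c1_3, c1_6, c1_8, c1_9],
   [s1_5, s2_4, s3_6, s8_9, c1_3, c1_6, c1_8, c1_9],
   [s0_1, s1_2, s4_7, s5_7, s6_8, s8_9, c1_3, c1_6, c1_8, c1_9],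
   [s0_4, s1_5, s2_4, s3_6, s4_7, s6_8, s8_9, c1_3, c1_6, c1_8, c1_9],
   [s0_1, s1_7, s2_4, s3_8, s5_7, s6_8, s8_9, c1_3, c1_6, c1_8, c1_9],
   [s0_4, s1_7, s2_7, s3_8, s4_5, s8_9, c1_3, c1_6, c1_8, c1_9],
   [s0_2, s1_2, s4_5, s5_7, s6_9, s8_9, c1_3, c1_6, c1_8, c1_9],
   [s0_5, s1_5, s2_4, s3_6, s5_7, s6_9, s8_9, c1_3, c1_6, c1_8, c1_9],
   [s0_2, s4_7, s6_9, c1_3, c1_6, c1_8, c1_9]],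
  [[s0_5, s1_4, s2_5, s3_6, s4_7, s6_9, c1_3, c1_6, c1_8, c1_9],
   [s0_7, s2_4, s3_8, s6_9, c1_3, c1_6, c1_8, c1_9],
   [s0_7, s1_4, s2_4, s3_8, s4_5, s6_9, s8_9, c1_3, c1_6, c1_8, c1_9],
   [s0_2, s1_5, s2_7, s3_9, s4_7, s6_9, s8_9, c1_3, c1_6, c1_8, c1_9],
   [s0_5, s1_2, s2_7, s3_9, s4_5, s8_9, c1_3, c1_6, c1_8, c1_9],
   [s0_2, s1_7, s2_5, s3_9, s4_7, s6_9, c1_3, c1_6, c1_8, c1_9],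
   [s0_5, s1_7, s3_9, c1_3, c1_6, c1_8, c1_9],
   [s0_7, s1_2, s2_5, s3_9, s4_5, s6_8, s8_9, c1_3, c1_6, c1_8, c1_9],
   [s0_7, s1_5, s3_9, s6_8, c1_3, c1_6, c1_8, c1_9]],
  [[s2_3, s5_6, s7_8, c1_3, c1_6, c1_8, c1_9],
   [s1_4, s2_6, s3_5, s7_8, c1_3, c1_6, c1_8, c1_9],
   [s0_1, s2_3, s5_8, s6_7, c1_3, c1_6, c1_8, c1_9],
   [s0_4, s1_4, s2_6, s3_5, s5_8, s6_7, s7_8, c1_3, c1_6, c1_8, c1_9],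
   [s0_1, s1_4, s2_8, s3_7, s5_7, s6_8, s7_8, c1_3, c1_6, c1_8, c1_9],
   [s0_4, s2_8, s3_7, s5_6, c1_3, c1_6, c1_8, c1_9],
   [s1_2, s2_3, s4_5, s5_6, s7_9, s8_9, c1_3, c1_6, c1_8, c1_9],
   [s1_5, s2_6, s3_4, s4_6, s5_6, s7_9, s8_9, c1_3, c1_6, c1_8, c1_9],
   [s0_1, s1_2, s2_3, s4_7, s5_8, s6_7, s7_9, c1_3, c1_6, c1_8, c1_9]],
  [[s0_4, s1_5, s2_6, s3_4, s4_7, s5_8, s6_8, s7_9, c1_3, c1_6, c1_8, c1_9],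
   [s0_1, s1_7, s2_8, s3_4, s4_8, s5_8, s6_7, s7_9, c1_3, c1_6, c1_8, c1_9],
   [s0_4, s1_7, s2_8, s3_7, s4_5, s5_6, s7_9, c1_3, c1_6, c1_8, c1_9],
   [s0_2, s1_2, s2_3, s4_5, s5_9, s6_7, s8_9, c1_3, c1_6, c1_8, c1_9],
   [s0_5, s1_5, s2_6, s3_4, s4_6, s5_9, s6_7, s8_9, c1_3, c1_6, c1_8, c1_9],
   [s0_2, s2_3, s4_7, s5_9, s6_9, s7_8, c1_3, c1_6, c1_8, c1_9],
   [s0_5, s1_4, s2_6, s3_5, s4_7, s5_9, s7_8, c1_3, c1_6, c1_8, c1_9],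
   [s0_7, s2_8, s3_4, s4_8, s5_9, s6_9, s7_8, c1_3, c1_6, c1_8, c1_9],
   [s0_7, s1_4, s2_8, s3_4, s4_5, s5_9, s6_8, s7_8, c1_3, c1_6, c1_8, c1_9]]]

/-- Programs. -/
def pr2 : List (List (List PI)) := [
  [[s0_2, s1_5, s2_9, s3_7, s4_9, s5_7, s6_7, s8_9, c1_3, c1_6, c1_8, c1_9],
   [s0_5, s1_2, s2_9, s3_7, s4_5, s5_6, s8_9, c1_3, c1_6, c1_8, c1_9],
   [s0_2, s1_7, s2_9, s3_5, s4_7, s6_9, s7_8, c1_3, c1_6, c1_8, c1_9],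
   [s0_5, s1_7, s2_9, s3_9, s5_6, s7_8, c1_3, c1_6, c1_8, c1_9],
   [s0_7, s1_2, s2_9, s3_5, s4_9, s5_8, s6_9, s7_8, c1_3, c1_6, c1_8, c1_9],
   [s0_7, s1_5, s2_9, s3_9, s5_8, s6_8, s7_8, c1_3, c1_6, c1_8, c1_9],
   [s1_3, s2_3, s4_6, s5_6, s7_8, s8_9, c1_3, c1_6, c1_8, c1_9],
   [s1_6, s2_4, s3_5, s4_5, s5_6, s7_8, s8_9, c1_3, c1_6, c1_8, c1_9],
   [s0_1, s1_3, s2_3, s4_8, s5_8, s6_7, s8_9, c1_3, c1_6, c1_8, c1_9]],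
  [[s0_4, s1_6, s2_4, s3_5, s4_8, s5_6, s6_7, s8_9, c1_3, c1_6, c1_8, c1_9],
   [s0_1, s1_8, s2_4, s3_7, s4_7, s5_8, s6_7, s8_9, c1_3, c1_6, c1_8, c1_9],
   [s0_4, s1_8, s2_8, s3_7, s4_6, s5_6, s8_9, c1_3, c1_6, c1_8, c1_9],
   [s1_3, s4_6, s7_9, c1_3, c1_6, c1_8, c1_9],
   [s1_6, s2_5, s3_4, s7_9, c1_3, c1_6, c1_8, c1_9],
   [s0_1, s1_3, s4_8, s5_7, s6_8, s7_9, c1_3, c1_6, c1_8, c1_9],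
   [s0_4, s1_6, s2_5, s3_4, s4_8, s5_7, s7_9, c1_3, c1_6, c1_8, c1_9],
   [s0_1, s1_8, s2_7, s3_4, s5_7, s6_8, s7_9, c1_3, c1_6, c1_8, c1_9],
   [s0_4, s1_8, s2_7, s3_8, s4_6, s7_9, c1_3, c1_6, c1_8, c1_9]],
  [[s0_2, s1_3, s4_9, s6_7, c1_3, c1_6, c1_8, c1_9],
   [s0_5, s1_6, s2_5, s3_4, s4_9, s6_7, s7_9, c1_3, c1_6, c1_8, c1_9],
   [s0_2, s1_3, s2_3, s4_9, s5_7, s6_7, s7_8, c1_3, c1_6, c1_8, c1_9],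
   [s0_5, s1_6, s2_4, s3_5, s4_9, s5_7, s6_9, s7_8, c1_3, c1_6, c1_8, c1_9],
   [s0_7, s1_8, s2_8, s3_4, s4_9, s5_8, s6_8, s7_9, c1_3, c1_6, c1_8, c1_9],
   [s0_7, s1_8, s2_4, s3_8, s4_9, s6_9, s7_9, c1_3, c1_6, c1_8, c1_9],
   [s0_2, s1_9, s2_5, s3_7, s4_7, s6_9, s7_9, c1_3, c1_6, c1_8, c1_9],
   [s0_5, s1_9, s3_7, s4_6, c1_3, c1_6, c1_8, c1_9],
   [s0_2, s1_9, s2_7, s3_5, s4_5, s5_9, s6_7, s7_8, c1_3, c1_6, c1_8, c1_9]],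
  [[s0_5, s1_9, s2_7, s3_7, s4_6, s5_6, s7_8, c1_3, c1_6, c1_8, c1_9],
   [s0_7, s1_9, s3_5, s4_8, s5_9, s6_8, s7_9, c1_3, c1_6, c1_8, c1_9],
   [s0_7, s1_9, s2_5, s3_5, s4_8, s5_8, s6_9, s7_9, c1_3, c1_6, c1_8, c1_9],
   [s0_3, s1_3, s2_3, s4_6, s5_8, s6_9, s7_9, c1_3, c1_6, c1_8, c1_9],
   [s0_6, s1_6, s2_4, s3_5, s4_5, s5_8, s6_9, s7_9, c1_3, c1_6, c1_8, c1_9],
   [s0_3, s2_3, s4_8, s5_6, s6_9, s7_8, c1_3, c1_6, c1_8, c1_9],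
   [s0_6, s1_4, s2_6, s3_5, s4_8, s6_9, s7_8, c1_3, c1_6, c1_8, c1_9],
   [s0_8, s2_4, s3_7, s4_7, s5_6, s6_9, s7_8, c1_3, c1_6, c1_8, c1_9],
   [s0_8, s1_4, s2_4, s3_7, s4_6, s5_7, s6_9, s7_8, c1_3, c1_6, c1_8, c1_9]],
  [[s0_3, s1_3, s4_6, s5_9, s6_8, s7_9, c1_3, c1_6, c1_8, c1_9],
   [s0_6, s1_6, s2_5, s3_4, s5_9, s6_8, s7_9, c1_3, c1_6, c1_8, c1_9],
   [s0_3, s4_8, s5_9, c1_3, c1_6, c1_8, c1_9],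
   [s0_6, s1_4, s2_5, s3_6, s4_8, s5_9, c1_3, c1_6, c1_8, c1_9],
   [s0_8, s2_7, s3_4, s5_9, c1_3, c1_6, c1_8, c1_9],
   [s0_8, s1_4, s2_7, s3_4, s4_6, s5_9, s7_9, c1_3, c1_6, c1_8, c1_9],
   [s0_3, s1_2, s2_3, s4_9, s5_6, s6_8, s7_8, c1_3, c1_6, c1_8, c1_9],
   [s0_6, s1_5, s2_6, s3_4, s4_9, s5_9, s6_8, s7_8, c1_3, c1_6, c1_8, c1_9],
   [s0_3, s1_2, s4_9, s5_8, c1_3, c1_6, c1_8, c1_9]],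
  [[s0_6, s1_5, s2_4, s3_6, s4_9, s5_8, s8_9, c1_3, c1_6, c1_8, c1_9],
   [s0_8, s1_7, s2_7, s3_4, s4_9, s5_9, s8_9, c1_3, c1_6, c1_8, c1_9],
   [s0_8, s1_7, s2_4, s3_7, s4_9, s5_6, s6_7, s8_9, c1_3, c1_6, c1_8, c1_9],
   [s0_9, s1_2, s2_5, s3_7, s4_7, s5_6, s6_8, s7_9, c1_3, c1_6, c1_8, c1_9],
   [s0_9, s1_5, s3_7, s4_6, s5_7, s6_8, s7_9, c1_3, c1_6, c1_8, c1_9],
   [s0_9, s1_2, s2_7, s3_5, s4_5, s5_8, s8_9, c1_3, c1_6, c1_8, c1_9],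
   [s0_9, s1_5, s2_7, s3_7, s4_6, s5_8, s6_7, s8_9, c1_3, c1_6, c1_8, c1_9],
   [s0_9, s1_7, s3_5, s4_8, c1_3, c1_6, c1_8, c1_9],
   [s0_9, s1_7, s2_5, s3_5, s4_8, s5_6, s7_8, c1_3, c1_6, c1_8, c1_9]],
  [[s0_3, s1_6, s2_8, s3_9, s4_9, s5_6, s6_8, s7_9, c1_3, c1_6, c1_8, c1_9],
   [s0_6, s1_3, s2_8, s3_9, s4_6, s5_6, s7_9, c1_3, c1_6, c1_8, c1_9],
   [s0_3, s1_8, s2_6, s3_9, s4_8, s5_9, s7_8, c1_3, c1_6, c1_8, c1_9],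
   [s0_6, s1_8, s2_3, s3_9, s5_6, s7_8, c1_3, c1_6, c1_8, c1_9],
   [s0_8, s1_3, s2_6, s3_9, s4_9, s5_9, s6_7, s7_8, c1_3, c1_6, c1_8, c1_9],
   [s0_8, s1_6, s2_3, s3_9, s5_6, s6_7, s7_8, c1_3, c1_6, c1_8, c1_9],
   [s0_3, s1_6, s2_9, s3_8, s4_8, s5_9, s7_9, c1_3, c1_6, c1_8, c1_9],
   [s0_6, s1_3, s2_9, s3_8, s4_6, s7_9, c1_3, c1_6, c1_8, c1_9],
   [s0_3, s1_8, s2_9, s3_6, s4_8, s5_9, c1_3, c1_6, c1_8, c1_9]],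
  [[s0_6, s1_8, s2_9, c1_3, c1_6, c1_8, c1_9],
   [s0_8, s1_3, s2_9, s3_6, s4_6, s5_7, s7_9, c1_3, c1_6, c1_8, c1_9],
   [s0_8, s1_6, s2_9, s5_7, c1_3, c1_6, c1_8, c1_9],
   [s0_3, s1_9, s2_6, s3_8, s4_6, s5_8, s6_9, s7_8, c1_3, c1_6, c1_8, c1_9],
   [s0_6, s1_9, s2_3, s3_8, s4_5, s5_6, s7_8, c1_3, c1_6, c1_8, c1_9],
   [s0_3, s1_9, s2_8, s3_6, s4_8, s5_9, s8_9, c1_3, c1_6, c1_8, c1_9],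
   [s0_6, s1_9, s2_8, s4_5, c1_3, c1_6, c1_8, c1_9],
   [s0_8, s1_9, s2_3, s3_6, s4_7, s5_9, s6_7, s8_9, c1_3, c1_6, c1_8, c1_9],
   [s0_8, s1_9, s2_6, s4_7, s5_7, s6_9, s8_9, c1_3, c1_6, c1_8, c1_9]],
  [[s0_9, s1_3, s2_6, s3_8, s4_6, s6_7, s7_9, c1_3, c1_6, c1_8, c1_9],
   [s0_9, s1_6, s2_3, s3_8, s4_5, s5_8, s6_7, s7_9, c1_3, c1_6, c1_8, c1_9],
   [s0_9, s1_3, s2_8, s3_6, s4_8, s5_7, s6_7, s8_9, c1_3, c1_6, c1_8, c1_9],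
   [s0_9, s1_6, s2_8, s4_5, s5_7, s6_8, s8_9, c1_3, c1_6, c1_8, c1_9],
   [s0_9, s1_8, s2_3, s3_6, s4_7, s5_6, s7_8, c1_3, c1_6, c1_8, c1_9],
   [s0_9, s1_8, s2_6, s4_7, c1_3, c1_6, c1_8, c1_9],
   [s2_3, s5_6, s7_8, c2_2, c2_5, c2_7, c2_9],
   [s1_4, s2_6, s3_5, s7_8, c2_2, c2_5, c2_7, c2_9],
   [s0_1, s2_3, s5_8, s6_7, c2_2, c2_5, c2_7, c2_9]]]

end Pool.Agent.Lib.MP_afdd4d_co.K8.PD
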