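import Pool.Agent.Lib.MP_afdd4d_co.K8.PD.Ins

/-!
# Programs, part 3
-/

namespace Pool.Agent.Lib.MP_afdd4d_co.K8.PD

set_option maxRecDepth 100000
set_option exponentiation.threshold 10000000

/-- Programs. -/
def pr6 : List (List (List PI)) := [
  [[s0_3, s1_3, s4_6, s5_9, s6_8, s7_9, c4_0, c4_4, c4_5, c4_6],
   [s0_6, s1_6, s2_5, s3_4, s5_9, s6_8, s7_9, c4_0, c4_4, c4_5, c4_6],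
   [s0_3, s4_8, s5_9, c4_0, c4_4, c4_5, c4_6],
   [s0_6, s1_4, s2_5, s3_6, s4_8, s5_9, c4_0, c4_4, c4_5, c4_6],
   [s0_8, s2_7, s3_4, s5_9, c4_0, c4_4, c4_5, c4_6],
   [s0_8, s1_4, s2_7, s3_4, s4_6, s5_9, s7_9, c4_0, c4_4, c4_5, c4_6],
   [s0_3, s1_2, s2_3, s4_9, s5_6, s6_8, s7_8, c4_0, c4_4, c4_5, c4_6],
   [s0_6, s1_5, s2_6, s3_4, s4_9, s5_9, s6_8, s7_8, c4_0, c4_4, c4_5, c4_6],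
   [s0_3, s1_2, s4_9, s5_8, c4_0, c4_4, c4_5, c4_6]],
  [[s0_6, s1_5, s2_4, s3_6, s4_9, s5_8, s8_9, c4_0, c4_4, c4_5, c4_6],
   [s0_8, s1_7, s2_7, s3_4, s4_9, s5_9, s8_9, c4_0, c4_4, c4_5, c4_6],
   [s0_8, s1_7, s2_4, s3_7, s4_9, s5_6, s6_7, s8_9, c4_0, c4_4, c4_5, c4_6],
   [s0_9, s1_2, s2_5, s3_7, s4_7, s5_6, s6_8, s7_9, c4_0, c4_4, c4_5, c4_6],
   [s0_9, s1_5, s3_7, s4_6, s5_7, s6_8, s7_9, c4_0, c4_4, c4_5, c4_6],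
   [s0_9, s1_2, s2_7, s3_5, s4_5, s5_8, s8_9, c4_0, c4_4, c4_5, c4_6],
   [s0_9, s1_5, s2_7, s3_7, s4_6, s5_8, s6_7, s8_9, c4_0, c4_4, c4_5, c4_6],
   [s0_9, s1_7, s3_5, s4_8, c4_0, c4_4, c4_5, c4_6],
   [s0_9, s1_7, s2_5, s3_5, s4_8, s5_6, s7_8, c4_0, c4_4, c4_5, c4_6]],
  [[s0_2, s1_2, s4_5, s5_7, s6_9, s8_9, c4_0, c4_4, c4_5, c4_6],
   [s0_5, s1_5, s2_4, s3_6, s5_7, s6_9, s8_9, c4_0, c4_4, c4_5, c4_6],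
   [s0_2, s4_7, s6_9, c4_0, c4_4, c4_5, c4_6],
   [s0_5, s1_4, s2_5, s3_6, s4_7, s6_9, c4_0, c4_4, c4_5, c4_6],
   [s0_7, s2_4, s3_8, s6_9, c4_0, c4_4, c4_5, c4_6],
   [s0_7, s1_4, s2_4, s3_8, s4_5, s6_9, s8_9, c4_0, c4_4, c4_5, c4_6],
   [s0_1, s5_7, s6_8, c4_0, c4_4, c4_5, c4_6],
   [s0_4, s1_4, s2_5, s3_6, s5_7, s6_8, c4_0, c4_4, c4_5, c4_6],
   [c4_0, c4_4, c4_5, c4_6]],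
  [[s1_4, s2_5, s3_6, c4_0, c4_4, c4_5, c4_6],
   [s0_4, s2_7, s3_8, c4_0, c4_4, c4_5, c4_6],
   [s0_1, s1_4, s2_7, s3_8, s5_7, s6_8, c4_0, c4_4, c4_5, c4_6],
   [s0_1, s1_2, s4_7, s5_7, s6_8, s8_9, c4_0, c4_4, c4_5, c4_6],
   [s0_4, s1_5, s2_4, s3_6, s4_7, s6_8, s8_9, c4_0, c4_4, c4_5, c4_6],
   [s1_2, s4_5, s8_9, c4_0, c4_4, c4_5, c4_6],
   [s1_5, s2_4, s3_6, s8_9, c4_0, c4_4, c4_5, c4_6],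
   [s0_4, s1_7, s2_7, s3_8, s4_5, s8_9, c4_0, c4_4, c4_5, c4_6],
   [s0_1, s1_7, s2_4, s3_8, s5_7, s6_8, s8_9, c4_0, c4_4, c4_5, c4_6]],
  [[s0_7, s1_2, s2_5, s3_9, s4_5, s6_8, s8_9, c4_0, c4_4, c4_5, c4_6],
   [s0_7, s1_5, s3_9, s6_8, c4_0, c4_4, c4_5, c4_6],
   [s0_5, s1_2, s2_7, s3_9, s4_5, s8_9, c4_0, c4_4, c4_5, c4_6],
   [s0_2, s1_5, s2_7, s3_9, s4_7, s6_9, s8_9, c4_0, c4_4, c4_5, c4_6],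
   [s0_5, s1_7, s3_9, c4_0, c4_4, c4_5, c4_6],
   [s0_2, s1_7, s2_5, s3_9, s4_7, s6_9, c4_0, c4_4, c4_5, c4_6],
   [s0_2, s1_2, s2_3, s4_5, s5_9, s6_7, s8_9, c4_0, c4_4, c4_5, c4_6],
   [s0_5, s1_5, s2_6, s3_4, s4_6, s5_9, s6_7, s8_9, c4_0, c4_4, c4_5, c4_6],
   [s0_2, s2_3, s4_7, s5_9, s6_9, s7_8, c4_0, c4_4, c4_5, c4_6]],
  [[s0_5, s1_4, s2_6, s3_5, s4_7, s5_9, s7_8, c4_0, c4_4, c4_5, c4_6],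
   [s0_7, s2_8, s3_4, s4_8, s5_9, s6_9, s7_8, c4_0, c4_4, c4_5, c4_6],
   [s0_7, s1_4, s2_8, s3_4, s4_5, s5_9, s6_8, s7_8, c4_0, c4_4, c4_5, c4_6],
   [s0_1, s2_3, s5_8, s6_7, c4_0, c4_4, c4_5, c4_6],
   [s0_4, s1_4, s2_6, s3_5, s5_8, s6_7, s7_8, c4_0, c4_4, c4_5, c4_6],
   [s2_3, s5_6, s7_8, c4_0, c4_4, c4_5, c4_6],
   [s1_4, s2_6, s3_5, s7_8, c4_0, c4_4, c4_5, c4_6],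
   [s0_4, s2_8, s3_7, s5_6, c4_0, c4_4, c4_5, c4_6],
   [s0_1, s1_4, s2_8, s3_7, s5_7, s6_8, s7_8, c4_0, c4_4, c4_5, c4_6]],
  [[s0_1, s1_2, s2_3, s4_7, s5_8, s6_7, s7_9, c4_0, c4_4, c4_5, c4_6],
   [s0_4, s1_5, s2_6, s3_4, s4_7, s5_8, s6_8, s7_9, c4_0, c4_4, c4_5, c4_6],
   [s1_2, s2_3, s4_5, s5_6, s7_9, s8_9, c4_0, c4_4, c4_5, c4_6],
   [s1_5, s2_6, s3_4, s4_6, s5_6, s7_9, s8_9, c4_0, c4_4, c4_5, c4_6],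
   [s0_4, s1_7, s2_8, s3_7, s4_5, s5_6, s7_9, c4_0, c4_4, c4_5, c4_6],
   [s0_1, s1_7, s2_8, s3_4, s4_8, s5_8, s6_7, s7_9, c4_0, c4_4, c4_5, c4_6],
   [s0_7, s1_2, s2_9, s3_5, s4_9, s5_8, s6_9, s7_8, c4_0, c4_4, c4_5, c4_6],
   [s0_7, s1_5, s2_9, s3_9, s5_8, s6_8, s7_8, c4_0, c4_4, c4_5, c4_6],
   [s0_5, s1_2, s2_9, s3_7, s4_5, s5_6, s8_9, c4_0, c4_4, c4_5, c4_6]],
  [[s0_2, s1_5, s2_9, s3_7, s4_9, s5_7, s6_7, s8_9, c4_0, c4_4, c4_5, c4_6],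
   [s0_5, s1_7, s2_9, s3_9, s5_6, s7_8, c4_0, c4_4, c4_5, c4_6],
   [s0_2, s1_7, s2_9, s3_5, s4_7, s6_9, s7_8, c4_0, c4_4, c4_5, c4_6],
   [s0_2, s1_3, s4_9, s6_7, c4_0, c4_4, c4_5, c4_6],
   [s0_5, s1_6, s2_5, s3_4, s4_9, s6_7, s7_9, c4_0, c4_4, c4_5, c4_6],
   [s0_2, s1_3, s2_3, s4_9, s5_7, s6_7, s7_8, c4_0, c4_4, c4_5, c4_6],
   [s0_5, s1_6, s2_4, s3_5, s4_9, s5_7, s6_9, s7_8, c4_0, c4_4, c4_5, c4_6],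
   [s0_7, s1_8, s2_8, s3_4, s4_9, s5_8, s6_8, s7_9, c4_0, c4_4, c4_5, c4_6],
   [s0_7, s1_8, s2_4, s3_8, s4_9, s6_9, s7_9, c4_0, c4_4, c4_5, c4_6]],
  [[s0_1, s1_3, s2_3, s4_8, s5_8, s6_7, s8_9, c4_0, c4_4, c4_5, c4_6],
   [s0_4, s1_6, s2_4, s3_5, s4_8, s5_6, s6_7, s8_9, c4_0, c4_4, c4_5, c4_6],
   [s1_3, s2_3, s4_6, s5_6, s7_8, s8_9, c4_0, c4_4, c4_5, c4_6],
   [s1_6, s2_4, s3_5, s4_5, s5_6, s7_8, s8_9, c4_0, c4_4, c4_5, c4_6],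
   [s0_4, s1_8, s2_8, s3_7, s4_6, s5_6, s8_9, c4_0, c4_4, c4_5, c4_6],
   [s0_1, s1_8, s2_4, s3_7, s4_7, s5_8, s6_7, s8_9, c4_0, c4_4, c4_5, c4_6],
   [s0_1, s1_3, s4_8, s5_7, s6_8, s7_9, c4_0, c4_4, c4_5, c4_6],
   [s0_4, s1_6, s2_5, s3_4, s4_8, s5_7, s7_9, c4_0, c4_4, c4_5, c4_6],
   [s1_3, s4_6, s7_9, c4_0, c4_4, c4_5, c4_6]]]

/-- Programs. -/
def pr7 : List (List (List PI)) := [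
  [[s1_6, s2_5, s3_4, s7_9, c4_0, c4_4, c4_5, c4_6],
   [s0_4, s1_8, s2_7, s3_8, s4_6, s7_9, c4_0, c4_4, c4_5, c4_6],
   [s0_1, s1_8, s2_7, s3_4, s5_7, s6_8, s7_9, c4_0, c4_4, c4_5, c4_6],
   [s0_7, s1_9, s3_5, s4_8, s5_9, s6_8, s7_9, c4_0, c4_4, c4_5, c4_6],
   [s0_7, s1_9, s2_5, s3_5, s4_8, s5_8, s6_9, s7_9, c4_0, c4_4, c4_5, c4_6],
   [s0_5, s1_9, s3_7, s4_6, c4_0, c4_4, c4_5, c4_6],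
   [s0_2, s1_9, s2_5, s3_7, s4_7, s6_9, s7_9, c4_0, c4_4, c4_5, c4_6],
   [s0_5, s1_9, s2_7, s3_7, s4_6, s5_6, s7_8, c4_0, c4_4, c4_5, c4_6],
   [s0_2, s1_9, s2_7, s3_5, s4_5, s5_9, s6_7, s7_8, c4_0, c4_4, c4_5, c4_6]],
  [[s0_9, s1_3, s2_6, s3_8, s4_6, s6_7, s7_9, c4_0, c4_4, c4_5, c4_6],
   [s0_9, s1_6, s2_3, s3_8, s4_5, s5_8, s6_7, s7_9, c4_0, c4_4, c4_5, c4_6],
   [s0_9, s1_3, s2_8, s3_6, s4_8, s5_7, s6_7, s8_9, c4_0, c4_4, c4_5, c4_6],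
   [s0_9, s1_6, s2_8, s4_5, s5_7, s6_8, s8_9, c4_0, c4_4, c4_5, c4_6],
   [s0_9, s1_8, s2_3, s3_6, s4_7, s5_6, s7_8, c4_0, c4_4, c4_5, c4_6],
   [s0_9, s1_8, s2_6, s4_7, c4_0, c4_4, c4_5, c4_6],
   [s0_8, s1_3, s2_6, s3_9, s4_9, s5_9, s6_7, s7_8, c4_0, c4_4, c4_5, c4_6],
   [s0_8, s1_6, s2_3, s3_9, s5_6, s6_7, s7_8, c4_0, c4_4, c4_5, c4_6],
   [s0_6, s1_3, s2_8, s3_9, s4_6, s5_6, s7_9, c4_0, c4_4, c4_5, c4_6]],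
  [[s0_3, s1_6, s2_8, s3_9, s4_9, s5_6, s6_8, s7_9, c4_0, c4_4, c4_5, c4_6],
   [s0_6, s1_8, s2_3, s3_9, s5_6, s7_8, c4_0, c4_4, c4_5, c4_6],
   [s0_3, s1_8, s2_6, s3_9, s4_8, s5_9, s7_8, c4_0, c4_4, c4_5, c4_6],
   [s0_8, s1_3, s2_9, s3_6, s4_6, s5_7, s7_9, c4_0, c4_4, c4_5, c4_6],
   [s0_8, s1_6, s2_9, s5_7, c4_0, c4_4, c4_5, c4_6],
   [s0_6, s1_3, s2_9, s3_8, s4_6, s7_9, c4_0, c4_4, c4_5, c4_6],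
   [s0_3, s1_6, s2_9, s3_8, s4_8, s5_9, s7_9, c4_0, c4_4, c4_5, c4_6],
   [s0_6, s1_8, s2_9, c4_0, c4_4, c4_5, c4_6],
   [s0_3, s1_8, s2_9, s3_6, s4_8, s5_9, c4_0, c4_4, c4_5, c4_6]],
  [[s0_8, s1_9, s2_3, s3_6, s4_7, s5_9, s6_7, s8_9, c4_0, c4_4, c4_5, c4_6],
   [s0_8, s1_9, s2_6, s4_7, s5_7, s6_9, s8_9, c4_0, c4_4, c4_5, c4_6],
   [s0_6, s1_9, s2_3, s3_8, s4_5, s5_6, s7_8, c4_0, c4_4, c4_5, c4_6],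
   [s0_3, s1_9, s2_6, s3_8, s4_6, s5_8, s6_9, s7_8, c4_0, c4_4, c4_5, c4_6],
   [s0_6, s1_9, s2_8, s4_5, c4_0, c4_4, c4_5, c4_6],
   [s0_3, s1_9, s2_8, s3_6, s4_8, s5_9, s8_9, c4_0, c4_4, c4_5, c4_6],
   [s0_3, s1_6, s2_8, s3_9, s4_9, s5_6, s6_8, s7_9, c5_0, c5_1, c5_2, c5_3],
   [s0_6, s1_3, s2_8, s3_9, s4_6, s5_6, s7_9, c5_0, c5_1, c5_2, c5_3],
   [s0_3, s1_8, s2_6, s3_9, s4_8, s5_9, s7_8, c5_0, c5_1, c5_2, c5_3]],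
  [[s0_6, s1_8, s2_3, s3_9, s5_6, s7_8, c5_0, c5_1, c5_2, c5_3],
   [s0_8, s1_3, s2_6, s3_9, s4_9, s5_9, s6_7, s7_8, c5_0, c5_1, c5_2, c5_3],
   [s0_8, s1_6, s2_3, s3_9, s5_6, s6_7, s7_8, c5_0, c5_1, c5_2, c5_3],
   [s0_3, s1_6, s2_9, s3_8, s4_8, s5_9, s7_9, c5_0, c5_1, c5_2, c5_3],
   [s0_6, s1_3, s2_9, s3_8, s4_6, s7_9, c5_0, c5_1, c5_2, c5_3],
   [s0_3, s1_8, s2_9, s3_6, s4_8, s5_9, c5_0, c5_1, c5_2, c5_3],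
   [s0_6, s1_8, s2_9, c5_0, c5_1, c5_2, c5_3],
   [s0_8, s1_3, s2_9, s3_6, s4_6, s5_7, s7_9, c5_0, c5_1, c5_2, c5_3],
   [s0_8, s1_6, s2_9, s5_7, c5_0, c5_1, c5_2, c5_3]],
  [[s0_3, s1_9, s2_6, s3_8, s4_6, s5_8, s6_9, s7_8, c5_0, c5_1, c5_2, c5_3],
   [s0_6, s1_9, s2_3, s3_8, s4_5, s5_6, s7_8, c5_0, c5_1, c5_2, c5_3],
   [s0_3, s1_9, s2_8, s3_6, s4_8, s5_9, s8_9, c5_0, c5_1, c5_2, c5_3],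
   [s0_6, s1_9, s2_8, s4_5, c5_0, c5_1, c5_2, c5_3],
   [s0_8, s1_9, s2_3, s3_6, s4_7, s5_9, s6_7, s8_9, c5_0, c5_1, c5_2, c5_3],
   [s0_8, s1_9, s2_6, s4_7, s5_7, s6_9, s8_9, c5_0, c5_1, c5_2, c5_3],
   [s0_9, s1_3, s2_6, s3_8, s4_6, s6_7, s7_9, c5_0, c5_1, c5_2, c5_3],
   [s0_9, s1_6, s2_3, s3_8, s4_5, s5_8, s6_7, s7_9, c5_0, c5_1, c5_2, c5_3],
   [s0_9, s1_3, s2_8, s3_6, s4_8, s5_7, s6_7, s8_9, c5_0, c5_1, c5_2, c5_3]],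
  [[s0_9, s1_6, s2_8, s4_5, s5_7, s6_8, s8_9, c5_0, c5_1, c5_2, c5_3],
   [s0_9, s1_8, s2_3, s3_6, s4_7, s5_6, s7_8, c5_0, c5_1, c5_2, c5_3],
   [s0_9, s1_8, s2_6, s4_7, c5_0, c5_1, c5_2, c5_3],
   [s0_2, s1_5, s2_7, s3_9, s4_7, s6_9, s8_9, c5_0, c5_1, c5_2, c5_3],
   [s0_5, s1_2, s2_7, s3_9, s4_5, s8_9, c5_0, c5_1, c5_2, c5_3],
   [s0_2, s1_7, s2_5, s3_9, s4_7, s6_9, c5_0, c5_1, c5_2, c5_3],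
   [s0_5, s1_7, s3_9, c5_0, c5_1, c5_2, c5_3],
   [s0_7, s1_2, s2_5, s3_9, s4_5, s6_8, s8_9, c5_0, c5_1, c5_2, c5_3],
   [s0_7, s1_5, s3_9, s6_8, c5_0, c5_1, c5_2, c5_3]],
  [[s0_1, s1_4, s2_7, s3_8, s5_7, s6_8, c5_0, c5_1, c5_2, c5_3],
   [s0_4, s2_7, s3_8, c5_0, c5_1, c5_2, c5_3],
   [s1_4, s2_5, s3_6, c5_0, c5_1, c5_2, c5_3],
   [c5_0, c5_1, c5_2, c5_3],
   [s0_4, s1_4, s2_5, s3_6, s5_7, s6_8, c5_0, c5_1, c5_2, c5_3],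
   [s0_1, s5_7, s6_8, c5_0, c5_1, c5_2, c5_3],
   [s0_1, s1_7, s2_4, s3_8, s5_7, s6_8, s8_9, c5_0, c5_1, c5_2, c5_3],
   [s0_4, s1_7, s2_7, s3_8, s4_5, s8_9, c5_0, c5_1, c5_2, c5_3],
   [s1_5, s2_4, s3_6, s8_9, c5_0, c5_1, c5_2, c5_3]],
  [[s1_2, s4_5, s8_9, c5_0, c5_1, c5_2, c5_3],
   [s0_4, s1_5, s2_4, s3_6, s4_7, s6_8, s8_9, c5_0, c5_1, c5_2, c5_3],
   [s0_1, s1_2, s4_7, s5_7, s6_8, s8_9, c5_0, c5_1, c5_2, c5_3],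
   [s0_7, s2_4, s3_8, s6_9, c5_0, c5_1, c5_2, c5_3],
   [s0_7, s1_4, s2_4, s3_8, s4_5, s6_9, s8_9, c5_0, c5_1, c5_2, c5_3],
   [s0_5, s1_5, s2_4, s3_6, s5_7, s6_9, s8_9, c5_0, c5_1, c5_2, c5_3],
   [s0_2, s1_2, s4_5, s5_7, s6_9, s8_9, c5_0, c5_1, c5_2, c5_3],
   [s0_5, s1_4, s2_5, s3_6, s4_7, s6_9, c5_0, c5_1, c5_2, c5_3],
   [s0_2, s4_7, s6_9, c5_0, c5_1, c5_2, c5_3]]]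

/-- Programs. -/
def pr8 : List (List (List PI)) := [
  [[s0_2, s1_5, s2_9, s3_7, s4_9, s5_7, s6_7, s8_9, c5_0, c5_1, c5_2, c5_3],
   [s0_5, s1_2, s2_9, s3_7, s4_5, s5_6, s8_9, c5_0, c5_1, c5_2, c5_3],
   [s0_2, s1_7, s2_9, s3_5, s4_7, s6_9, s7_8, c5_0, c5_1, c5_2, c5_3],
   [s0_5, s1_7, s2_9, s3_9, s5_6, s7_8, c5_0, c5_1, c5_2, c5_3],
   [s0_7, s1_2, s2_9, s3_5, s4_9, s5_8, s6_9, s7_8, c5_0, c5_1, c5_2, c5_3],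
   [s0_7, s1_5, s2_9, s3_9, s5_8, s6_8, s7_8, c5_0, c5_1, c5_2, c5_3],
   [s0_1, s1_4, s2_8, s3_7, s5_7, s6_8, s7_8, c5_0, c5_1, c5_2, c5_3],
   [s0_4, s2_8, s3_7, s5_6, c5_0, c5_1, c5_2, c5_3],
   [s1_4, s2_6, s3_5, s7_8, c5_0, c5_1, c5_2, c5_3]],
  [[s2_3, s5_6, s7_8, c5_0, c5_1, c5_2, c5_3],
   [s0_4, s1_4, s2_6, s3_5, s5_8, s6_7, s7_8, c5_0, c5_1, c5_2, c5_3],
   [s0_1, s2_3, s5_8, s6_7, c5_0, c5_1, c5_2, c5_3],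
   [s0_1, s1_7, s2_8, s3_4, s4_8, s5_8, s6_7, s7_9, c5_0, c5_1, c5_2, c5_3],
   [s0_4, s1_7, s2_8, s3_7, s4_5, s5_6, s7_9, c5_0, c5_1, c5_2, c5_3],
   [s1_5, s2_6, s3_4, s4_6, s5_6, s7_9, s8_9, c5_0, c5_1, c5_2, c5_3],
   [s1_2, s2_3, s4_5, s5_6, s7_9, s8_9, c5_0, c5_1, c5_2, c5_3],
   [s0_4, s1_5, s2_6, s3_4, s4_7, s5_8, s6_8, s7_9, c5_0, c5_1, c5_2, c5_3],
   [s0_1, s1_2, s2_3, s4_7, s5_8, s6_7, s7_9, c5_0, c5_1, c5_2, c5_3]],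
  [[s0_7, s2_8, s3_4, s4_8, s5_9, s6_9, s7_8, c5_0, c5_1, c5_2, c5_3],
   [s0_7, s1_4, s2_8, s3_4, s4_5, s5_9, s6_8, s7_8, c5_0, c5_1, c5_2, c5_3],
   [s0_5, s1_5, s2_6, s3_4, s4_6, s5_9, s6_7, s8_9, c5_0, c5_1, c5_2, c5_3],
   [s0_2, s1_2, s2_3, s4_5, s5_9, s6_7, s8_9, c5_0, c5_1, c5_2, c5_3],
   [s0_5, s1_4, s2_6, s3_5, s4_7, s5_9, s7_8, c5_0, c5_1, c5_2, c5_3],
   [s0_2, s2_3, s4_7, s5_9, s6_9, s7_8, c5_0, c5_1, c5_2, c5_3],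
   [s0_2, s1_9, s2_5, s3_7, s4_7, s6_9, s7_9, c5_0, c5_1, c5_2, c5_3],
   [s0_5, s1_9, s3_7, s4_6, c5_0, c5_1, c5_2, c5_3],
   [s0_2, s1_9, s2_7, s3_5, s4_5, s5_9, s6_7, s7_8, c5_0, c5_1, c5_2, c5_3]],
  [[s0_5, s1_9, s2_7, s3_7, s4_6, s5_6, s7_8, c5_0, c5_1, c5_2, c5_3],
   [s0_7, s1_9, s3_5, s4_8, s5_9, s6_8, s7_9, c5_0, c5_1, c5_2, c5_3],
   [s0_7, s1_9, s2_5, s3_5, s4_8, s5_8, s6_9, s7_9, c5_0, c5_1, c5_2, c5_3],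
   [s0_1, s1_8, s2_4, s3_7, s4_7, s5_8, s6_7, s8_9, c5_0, c5_1, c5_2, c5_3],
   [s0_4, s1_8, s2_8, s3_7, s4_6, s5_6, s8_9, c5_0, c5_1, c5_2, c5_3],
   [s1_6, s2_4, s3_5, s4_5, s5_6, s7_8, s8_9, c5_0, c5_1, c5_2, c5_3],
   [s1_3, s2_3, s4_6, s5_6, s7_8, s8_9, c5_0, c5_1, c5_2, c5_3],
   [s0_4, s1_6, s2_4, s3_5, s4_8, s5_6, s6_7, s8_9, c5_0, c5_1, c5_2, c5_3],
   [s0_1, s1_3, s2_3, s4_8, s5_8, s6_7, s8_9, c5_0, c5_1, c5_2, c5_3]],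
  [[s0_1, s1_8, s2_7, s3_4, s5_7, s6_8, s7_9, c5_0, c5_1, c5_2, c5_3],
   [s0_4, s1_8, s2_7, s3_8, s4_6, s7_9, c5_0, c5_1, c5_2, c5_3],
   [s1_6, s2_5, s3_4, s7_9, c5_0, c5_1, c5_2, c5_3],
   [s1_3, s4_6, s7_9, c5_0, c5_1, c5_2, c5_3],
   [s0_4, s1_6, s2_5, s3_4, s4_8, s5_7, s7_9, c5_0, c5_1, c5_2, c5_3],
   [s0_1, s1_3, s4_8, s5_7, s6_8, s7_9, c5_0, c5_1, c5_2, c5_3],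
   [s0_7, s1_8, s2_8, s3_4, s4_9, s5_8, s6_8, s7_9, c5_0, c5_1, c5_2, c5_3],
   [s0_7, s1_8, s2_4, s3_8, s4_9, s6_9, s7_9, c5_0, c5_1, c5_2, c5_3],
   [s0_5, s1_6, s2_5, s3_4, s4_9, s6_7, s7_9, c5_0, c5_1, c5_2, c5_3]],
  [[s0_2, s1_3, s4_9, s6_7, c5_0, c5_1, c5_2, c5_3],
   [s0_5, s1_6, s2_4, s3_5, s4_9, s5_7, s6_9, s7_8, c5_0, c5_1, c5_2, c5_3],
   [s0_2, s1_3, s2_3, s4_9, s5_7, s6_7, s7_8, c5_0, c5_1, c5_2, c5_3],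
   [s0_9, s1_2, s2_5, s3_7, s4_7, s5_6, s6_8, s7_9, c5_0, c5_1, c5_2, c5_3],
   [s0_9, s1_5, s3_7, s4_6, s5_7, s6_8, s7_9, c5_0, c5_1, c5_2, c5_3],
   [s0_9, s1_2, s2_7, s3_5, s4_5, s5_8, s8_9, c5_0, c5_1, c5_2, c5_3],
   [s0_9, s1_5, s2_7, s3_7, s4_6, s5_8, s6_7, s8_9, c5_0, c5_1, c5_2, c5_3],
   [s0_9, s1_7, s3_5, s4_8, c5_0, c5_1, c5_2, c5_3],
   [s0_9, s1_7, s2_5, s3_5, s4_8, s5_6, s7_8, c5_0, c5_1, c5_2, c5_3]],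
  [[s0_8, s2_4, s3_7, s4_7, s5_6, s6_9, s7_8, c5_0, c5_1, c5_2, c5_3],
   [s0_8, s1_4, s2_4, s3_7, s4_6, s5_7, s6_9, s7_8, c5_0, c5_1, c5_2, c5_3],
   [s0_6, s1_6, s2_4, s3_5, s4_5, s5_8, s6_9, s7_9, c5_0, c5_1, c5_2, c5_3],
   [s0_3, s1_3, s2_3, s4_6, s5_8, s6_9, s7_9, c5_0, c5_1, c5_2, c5_3],
   [s0_6, s1_4, s2_6, s3_5, s4_8, s6_9, s7_8, c5_0, c5_1, c5_2, c5_3],
   [s0_3, s2_3, s4_8, s5_6, s6_9, s7_8, c5_0, c5_1, c5_2, c5_3],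
   [s0_8, s2_7, s3_4, s5_9, c5_0, c5_1, c5_2, c5_3],
   [s0_8, s1_4, s2_7, s3_4, s4_6, s5_9, s7_9, c5_0, c5_1, c5_2, c5_3],
   [s0_6, s1_6, s2_5, s3_4, s5_9, s6_8, s7_9, c5_0, c5_1, c5_2, c5_3]],
  [[s0_3, s1_3, s4_6, s5_9, s6_8, s7_9, c5_0, c5_1, c5_2, c5_3],
   [s0_6, s1_4, s2_5, s3_6, s4_8, s5_9, c5_0, c5_1, c5_2, c5_3],
   [s0_3, s4_8, s5_9, c5_0, c5_1, c5_2, c5_3],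
   [s0_8, s1_7, s2_7, s3_4, s4_9, s5_9, s8_9, c5_0, c5_1, c5_2, c5_3],
   [s0_8, s1_7, s2_4, s3_7, s4_9, s5_6, s6_7, s8_9, c5_0, c5_1, c5_2, c5_3],
   [s0_6, s1_5, s2_6, s3_4, s4_9, s5_9, s6_8, s7_8, c5_0, c5_1, c5_2, c5_3],
   [s0_3, s1_2, s2_3, s4_9, s5_6, s6_8, s7_8, c5_0, c5_1, c5_2, c5_3],
   [s0_6, s1_5, s2_4, s3_6, s4_9, s5_8, s8_9, c5_0, c5_1, c5_2, c5_3],
   [s0_3, s1_2, s4_9, s5_8, c5_0, c5_1, c5_2, c5_3]],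
  [[],
   [],
   [],
   [],
   [],
   [],
   [],
   [],
   []]]

end Pool.Agent.Lib.MP_afdd4d_co.K8.PD
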